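import Pool.Agent.Helper64.DT.Stmts

/-! Diamond-free circle graphs (MP_866009_co): module D1. -/

set_option autoImplicit false

namespace Pool.Agent.Helper64.DT

open Pool.Agent.Helper64.CT

theorem st_D1 (h1 : CT.ST_ALS) : ST_D1 := by
  intro V G s _ hCI hS hTr a c y a' hac hA hcaa hmix
  obtain ⟨hA', hiff, hAtt⟩ := h1 V G a c y hac hA
  obtain ⟨⟨n1, hn1, ha1⟩, n2, hn2, ha2⟩ := hmix
  have hca : c ∈ Far G a := Far.symm hac
  have han1 : G.Adj a n1 := hA.2.2 n1 hn1
  have han2 : G.Adj a n2 := hA.2.2 n2 hn2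
  have hcn1 : G.Adj c n1 := hn1.1
  have hcn2 : G.Adj c n2 := hn2.1
  have hne : a' ≠ a := by
    rintro rfl
    exact ha2 han2
  have hfc : a' ∈ Far G c := hcaa.right
  by_cases hadj : G.Adj a a'
  · -- the triangle a, a', n1
    have hyfar : ∀ z, Comp G c y z → z ∈ Far G a' := by
      intro z hz
      constructor
      · rintro rfl
        exact hA.2.1 (hcaa.trans hz.symm)
      · intro hz2
        exact hA.2.1 (hcaa.trans (hz.step hfc hz2.symm).symm)
    obtain ⟨_, y1, hy1, hny1⟩ := id hn1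
    obtain ⟨_, y2, hy2, hny2⟩ := id hn2
    have hay1 : Comp G a y y1 := (hiff y1).2 hy1
    have e1 := hTr a a' n1 c y1 hadj han1 ha1 hcn1.symm hny1 hca (Far.symm hfc) hay1.right
      (hyfar y1 hy1)
    have hn2far : n2 ∈ Far G a' := by
      refine ⟨?_, ha2⟩
      rintro rfl
      exact hfc.2 hcn2
    have h21 : Comp G a' y2 y1 := by
      have h3 : Comp G c y2 y1 := hy2.symm.trans hy1
      refine h3.ind (fun z => Comp G a' y2 z) (Comp.refl (hyfar y2 hy2)) ?_
      intro z w hz hP hw hzw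
      exact hP.step (hyfar w ((hy2.trans hz).step hw hzw)) hzw
    have hcy1 : Comp G a' c y1 :=
      (((Comp.refl (Far.symm hfc)).step hn2far hcn2).step (hyfar y2 hy2) hny2).trans h21
    have e2 : s a' c = s a' y1 := (hS a').1 c y1 hcy1
    have e3 : s a y = s a y1 := (hS a).1 y y1 hay1
    rw [e3, e1.2 e2]
  · have hnadj : ¬ G.Adj a a' := hadj
    have hfa : a' ∈ Far G a := ⟨hne, hnadj⟩
    by_cases hcase : Comp G a a' c
    · exfalso
      apply hCI
      refine ⟨n1, a, a', c, han1.symm, ha1.symm, hcn1.symm, hcaa, hcase, ?_⟩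
      have hn2far : n2 ∈ Far G a' := by
        refine ⟨?_, ha2⟩
        rintro rfl
        exact hnadj han2
      exact (Comp.adj (Far.symm hfa) hn2far han2).step (Far.symm hfc) hcn2.symm
    · have hm : ∃ m ∈ Att G a a', ¬ G.Adj c m := by
        by_contra hcon
        push Not at hcon
        have hal : Alpha G c a a' := ⟨hfa, fun h => hcase h.symm, hcon⟩
        exact (h1 V G c a a' hca hal).1.2.1 hcaa
      obtain ⟨m, hm1, hm2⟩ := hm
      have hn1a' : n1 ∈ Att G a a' := ⟨han1, a', Comp.refl hfa, ha1.symm⟩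
      have hc1 : Conf G a a' y := by
        refine ⟨?_, ⟨a', Comp.refl hfa, ?_⟩, ?_⟩
        · intro h
          exact hA.2.1 (hcaa.trans ((hiff a').1 h.symm).symm)
        · rw [hAtt]
          exact ⟨⟨n1, hn1, ha1⟩, n2, hn2, ha2⟩
        · obtain ⟨_, y1, hy1, hny1⟩ := id hn1
          refine ⟨y1, (hiff y1).2 hy1, ⟨n1, hn1a', hny1.symm⟩, m, hm1, ?_⟩
          intro hmy
          have hm3 : m ∈ Att G a y := ⟨hm1.1, y1, (hiff y1).2 hy1, hmy.symm⟩
          rw [hAtt] at hm3
          exact hm2 hm3.1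
      have hc2 : Conf G a a' c := by
        refine ⟨hcase, ⟨a', Comp.refl hfa, ⟨n1, ⟨han1, c, Comp.refl hca, hcn1.symm⟩, ha1⟩, n2,
          ⟨han2, c, Comp.refl hca, hcn2.symm⟩, ha2⟩, c, Comp.refl hca, ⟨n1, hn1a', hcn1⟩, m, hm1,
          hm2⟩
      have e1 := (hS a).2 a' y hc1
      have e2 := (hS a).2 a' c hc2
      revert e1 e2
      cases s a a' <;> cases s a y <;> cases s a c <;> simp

end Pool.Agent.Helper64.DT
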