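import Pool.Agent.Helper64.DT.Stmts

/-! Diamond-free circle graphs (MP_866009_co): module GB3. -/

set_option autoImplicit false

namespace Pool.Agent.Helper64.DT

open Pool.Agent.Helper64.CT
open Pool.Agent.Helper64.HG (Ovl)

/-- the four order types of two chords crossing `(ln, rn)` -/
theorem gb3_ord (ln rn lv rv lu ru : ℝ)
    (h1 : (ln < lv ∧ lv < rn ∧ rn < rv) ∨ (lv < ln ∧ ln < rv ∧ rv < rn))
    (h2 : (ln < lu ∧ lu < rn ∧ rn < ru) ∨ (lu < ln ∧ ln < ru ∧ ru < rn))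
    (h3 : ¬ ((lv < lu ∧ lu < rv ∧ rv < ru) ∨ (lu < lv ∧ lv < ru ∧ ru < rv)))
    (d1 : lv ≠ lu) (d2 : rv ≠ ru) (d3 : lv ≠ ru) (d4 : lu ≠ rv) :
    ((ln < lv ∧ lv < rn ∧ rn < rv ∧ ln < lu ∧ lu < rn ∧ rn < ru ∧ lv < lu ∧ ru < rv) ∨
      (ln < lv ∧ lv < rn ∧ rn < rv ∧ ln < lu ∧ lu < rn ∧ rn < ru ∧ lu < lv ∧ rv < ru)) ∨
    (ln < lv ∧ lv < rn ∧ rn < rv ∧ lu < ln ∧ ln < ru ∧ ru < rn ∧ ru < lv) ∨
    (lv < ln ∧ ln < rv ∧ rv < rn ∧ ln < lu ∧ lu < rn ∧ rn < ru ∧ rv < lu) ∨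
    ((lv < ln ∧ ln < rv ∧ rv < rn ∧ lu < ln ∧ ln < ru ∧ ru < rn ∧ lv < lu ∧ ru < rv) ∨
      (lv < ln ∧ ln < rv ∧ rv < rn ∧ lu < ln ∧ ln < ru ∧ ru < rn ∧ lu < lv ∧ rv < ru)) := by
  rcases h1 with ⟨a1, a2, a3⟩ | ⟨a1, a2, a3⟩ <;> rcases h2 with ⟨b1, b2, b3⟩ | ⟨b1, b2, b3⟩ <;>
    rcases lt_or_gt_of_ne d1 with e1 | e1 <;> rcases lt_or_gt_of_ne d2 with e2 | e2 <;>
    rcases lt_or_gt_of_ne d3 with e3 | e3 <;> rcases lt_or_gt_of_ne d4 with e4 | e4 <;>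
    first
    | (exfalso; exact h3 (Or.inl ⟨e1, e4, e2⟩))
    | (exfalso; exact h3 (Or.inr ⟨e1, e3, e2⟩))
    | (exfalso; linarith)
    | (left; left; exact ⟨a1, a2, a3, b1, b2, b3, e1, e2⟩)
    | (left; right; exact ⟨a1, a2, a3, b1, b2, b3, e1, e2⟩)
    | (right; left; exact ⟨a1, a2, a3, b1, b2, b3, e3⟩)
    | (right; right; left; exact ⟨a1, a2, a3, b1, b2, b3, e4⟩)
    | (right; right; right; left; exact ⟨a1, a2, a3, b1, b2, b3, e1, e2⟩)
    | (right; right; right; right; exact ⟨a1, a2, a3, b1, b2, b3, e1, e2⟩)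

theorem st_GB3 : ST_GB3 := by
  intro V G T l r w hM n hn v hv u hu hnv hnu hvu hnadj
  have h1 := (hM.adj n hn v hv).1 hnv
  have h2 := (hM.adj n hn u hu).1 hnu
  have h3 : ¬ Ovl l r v u := fun h => hnadj ((hM.adj v hv u hu).2 h)
  have d1 : l v ≠ l u := fun h => hvu (hM.injl v hv u hu h)
  have d2 : r v ≠ r u := fun h => hvu (hM.injr v hv u hu h)
  have d3 : l v ≠ r u := hM.ne v hv u hu
  have d4 : l u ≠ r v := hM.ne u hu v hv
  have k1 := hM.lt n hn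
  have k2 := hM.lt v hv
  have k3 := hM.lt u hu
  have key := gb3_ord (l n) (r n) (l v) (r v) (l u) (r u) h1 h2 h3 d1 d2 d3 d4
  unfold bm tl InP
  generalize l n = ln at *
  generalize r n = rn at *
  generalize l v = lv at *
  generalize r v = rv at *
  generalize l u = lu at *
  generalize r u = ru at *
  clear h1 h2 h3 hM hnv hnu hvu hnadj hn hv hu
  rcases key with (⟨a1, a2, a3, a4, a5, a6, a7, a8⟩ | ⟨a1, a2, a3, a4, a5, a6, a7, a8⟩) |
    ⟨a1, a2, a3, a4, a5, a6, a7⟩ | ⟨a1, a2, a3, a4, a5, a6, a7⟩ |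
    (⟨a1, a2, a3, a4, a5, a6, a7, a8⟩ | ⟨a1, a2, a3, a4, a5, a6, a7, a8⟩) <;>
  (by_cases c1 : lv < lu <;> first | (exfalso; linarith) | skip) <;>
  (by_cases c2 : lu < lv <;> first | (exfalso; linarith) | skip) <;>
  (by_cases c3 : lu < rv <;> first | (exfalso; linarith) | skip) <;>
  (by_cases c4 : lv < ru <;> first | (exfalso; linarith) | skip) <;>
  (by_cases c5 : ru < rv <;> first | (exfalso; linarith) | skip) <;>
  (by_cases c6 : rv < ru <;> first | (exfalso; linarith) | skip) <;>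
  (by_cases c7 : ln < lv <;> first | (exfalso; linarith) | skip) <;>
  (by_cases c8 : lv < rn <;> first | (exfalso; linarith) | skip) <;>
  (by_cases c9 : ln < rv <;> first | (exfalso; linarith) | skip) <;>
  (by_cases e1 : rv < rn <;> first | (exfalso; linarith) | skip) <;>
  (by_cases e2 : ln < lu <;> first | (exfalso; linarith) | skip) <;>
  (by_cases e3 : lu < rn <;> first | (exfalso; linarith) | skip) <;>
  (by_cases e4 : ln < ru <;> first | (exfalso; linarith) | skip) <;>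
  (by_cases e5 : ru < rn <;> first | (exfalso; linarith) | skip) <;>
  clear a1 a2 a3 a4 a5 a6 a7 k1 k2 k3 d1 d2 d3 d4 <;>
  cases w v <;> cases w u <;> cases w n <;> simp [*]

end Pool.Agent.Helper64.DT
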